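import Mathlib

set_option autoImplicit false

/-! The Lusin and Novikov theorem: a countable-to-one Borel map between standard Borel spaces
is injective on each piece of a countable Borel cover. -/

namespace Pool.Agent.Lib.Helper36

open Set MeasureTheory Filter Topology

/-- Finite version of the Novikov separation theorem. -/
theorem novikov_finite {X : Type*} [TopologicalSpace X] [PolishSpace X] [MeasurableSpace X]
    [BorelSpace X] {ι : Type*} [Finite ι] (T : ι → Set X) (hT : ∀ i, AnalyticSet (T i))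
    (h : ∀ x, ∃ i, x ∉ T i) :
    ∃ C : ι → Set X, (∀ i, MeasurableSet (C i)) ∧ (∀ i, T i ⊆ C i) ∧ ∀ x, ∃ i, x ∉ C i := by
  classical
  have := Fintype.ofFinite ι
  suffices H : ∀ s : Finset ι, ∃ C : ι → Set X, (∀ i ∈ s, MeasurableSet (C i)) ∧
      (∀ i, AnalyticSet (C i)) ∧ (∀ i, T i ⊆ C i) ∧ ∀ x, ∃ i, x ∉ C i by
    obtain ⟨C, h1, -, h2, h3⟩ := H Finset.univ
    exact ⟨C, fun i => h1 i (Finset.mem_univ i), h2, h3⟩
  intro s
  induction s using Finset.induction_on with
  | empty => exact ⟨T, by simp, hT, fun _ => Subset.rfl, h⟩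
  | insert a s ha ih =>
    obtain ⟨C, h1, h2, h3, h4⟩ := ih
    have : Nonempty ι := ⟨a⟩
    have hA : AnalyticSet (⋂ i, Function.update C a univ i) := by
      apply AnalyticSet.iInter
      intro i
      by_cases hi : i = a
      · subst hi
        simpa using MeasurableSet.univ.analyticSet
      · simpa [hi] using h2 i
    have hd : Disjoint (C a) (⋂ i, Function.update C a univ i) := by
      rw [Set.disjoint_left]
      intro x hx hx'
      obtain ⟨i, hi⟩ := h4 x
      by_cases hia : i = a
      · subst hia; exact hi hx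
      · have := mem_iInter.1 hx' i
        simp [hia] at this
        exact hi this
    obtain ⟨u, hu1, hu2, hu3⟩ := (h2 a).measurablySeparable hA hd
    refine ⟨Function.update C a u, ?_, ?_, ?_, ?_⟩
    · intro i hi
      by_cases hia : i = a
      · subst hia; simpa using hu3
      · simpa [hia] using h1 i (by simpa [hia] using hi)
    · intro i
      by_cases hia : i = a
      · subst hia; simpa using hu3.analyticSet
      · simpa [hia] using h2 i
    · intro i
      by_cases hia : i = a
      · subst hia; simpa using (h3 i).trans hu1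
      · simpa [hia] using h3 i
    · intro x
      by_contra hne
      push Not at hne
      have hxu : x ∈ u := by simpa using hne a
      refine Set.disjoint_left.1 hu2 (mem_iInter.2 fun i => ?_) hxu
      by_cases hia : i = a
      · subst hia; simp
      · simpa [hia] using hne i

section Small

variable {Z X : Type*} [MeasurableSpace Z]

/-- Covered by countably many measurable sets on each of which `f` is injective. -/
def InjCovered (f : Z → X) (A : Set Z) : Prop :=
  ∃ B : ℕ → Set Z, (∀ n, MeasurableSet (B n)) ∧ (∀ n, InjOn f (B n)) ∧ A ⊆ ⋃ n, B n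

theorem InjCovered.mono {f : Z → X} {A A' : Set Z} (h : InjCovered f A) (h' : A' ⊆ A) :
    InjCovered f A' := by
  obtain ⟨B, h1, h2, h3⟩ := h
  exact ⟨B, h1, h2, h'.trans h3⟩

theorem InjCovered.of_injOn {f : Z → X} {A : Set Z} (h : MeasurableSet A) (h' : InjOn f A) :
    InjCovered f A :=
  ⟨fun _ => A, fun _ => h, fun _ => h', subset_iUnion (fun _ : ℕ => A) 0⟩

theorem InjCovered.empty (f : Z → X) : InjCovered f ∅ :=
  InjCovered.of_injOn MeasurableSet.empty (injOn_empty f)

theorem InjCovered.iUnion {f : Z → X} {κ : Type*} [Countable κ] {A : κ → Set Z}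
    (h : ∀ k, InjCovered f (A k)) : InjCovered f (⋃ k, A k) := by
  rcases isEmpty_or_nonempty κ with hk | hk
  · simpa using InjCovered.empty f
  choose B h1 h2 h3 using h
  obtain ⟨e, he⟩ := exists_surjective_nat (κ × ℕ)
  refine ⟨fun n => B (e n).1 (e n).2, fun n => h1 _ _, fun n => h2 _ _, ?_⟩
  intro z hz
  obtain ⟨k, hk⟩ := mem_iUnion.1 hz
  obtain ⟨m, hm⟩ := mem_iUnion.1 (h3 k hk)
  obtain ⟨n, hn⟩ := he (k, m)
  exact mem_iUnion.2 ⟨n, by rw [hn]; exact hm⟩

theorem InjCovered.union {f : Z → X} {A A' : Set Z} (h : InjCovered f A) (h' : InjCovered f A') :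
    InjCovered f (A ∪ A') := by
  rw [union_eq_iUnion]
  apply InjCovered.iUnion
  intro b
  cases b
  · exact h'
  · exact h

variable [MeasurableSpace X]

/-- A family of subsets of the domain is large if the target cannot be covered by measurable
sets over which the corresponding member of the family is covered by injective pieces. -/
def LargeFam (f : Z → X) {ι : Type*} (U : ι → Set Z) : Prop :=
  ¬ ∃ D : ι → Set X, (∀ i, MeasurableSet (D i)) ∧ (∀ x, ∃ i, x ∈ D i) ∧
    ∀ i, InjCovered f (U i ∩ f ⁻¹' D i)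

end Small

section Top

variable {Z X : Type*} [MetricSpace Z] [SecondCountableTopology Z] [CompleteSpace Z]
  [MeasurableSpace Z] [BorelSpace Z]
  [TopologicalSpace X] [PolishSpace X] [MeasurableSpace X] [BorelSpace X]

omit [BorelSpace Z] in
theorem LargeFam.exists_common {f : Z → X} (hf : Continuous f) {ι : Type*} [Finite ι]
    {U : ι → Set Z} (hU : ∀ i, IsOpen (U i)) (h : LargeFam f U) :
    ∃ x, ∀ i, x ∈ f '' U i := by
  by_contra hne
  push Not at hne
  obtain ⟨C, h1, h2, h3⟩ := novikov_finite (fun i => f '' U i)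
    (fun i => (hU i).analyticSet_image hf) hne
  refine h ⟨fun i => (C i)ᶜ, fun i => (h1 i).compl, h3, fun i => ?_⟩
  refine (InjCovered.empty f).mono ?_
  rintro z ⟨hz, hz'⟩
  exact hz' (h2 i ⟨z, hz, rfl⟩)

theorem LargeFam.refine {f : Z → X} (hf : Continuous f) {ι : Type*} [Finite ι]
    {U : ι → Set Z} (hU : ∀ i, IsOpen (U i)) (h : LargeFam f U) {ε : ℝ} (hε : 0 < ε) :
    ∃ V : ι × Bool → Set Z, ((∀ p, IsOpen (V p)) ∧ LargeFam f V) ∧
      (∀ i b, closure (V (i, b)) ⊆ U i) ∧ (∀ i, Disjoint (V (i, false)) (V (i, true))) ∧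
      ∀ p, Metric.ediam (V p) ≤ ENNReal.ofReal ε := by
  classical
  by_contra hne
  let B := TopologicalSpace.countableBasis Z
  have hB : TopologicalSpace.IsTopologicalBasis B := TopologicalSpace.isBasis_countableBasis Z
  have : Countable B := (TopologicalSpace.countable_countableBasis Z).to_subtype
  let P := {c : ι × Bool → B // (∀ i b, closure (c (i, b) : Set Z) ⊆ U i) ∧
    (∀ i, Disjoint (c (i, false) : Set Z) (c (i, true))) ∧
    ∀ p, Metric.ediam (c p : Set Z) ≤ ENNReal.ofReal ε}
  have hP : ∀ c : P, ∃ D : ι × Bool → Set X, (∀ p, MeasurableSet (D p)) ∧ (∀ x, ∃ p, x ∈ D p) ∧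
      ∀ p, InjCovered f ((c.1 p : Set Z) ∩ f ⁻¹' D p) := by
    intro c
    by_contra hc
    exact hne ⟨fun p => c.1 p, ⟨fun p => hB.isOpen (c.1 p).2, hc⟩, c.2.1, c.2.2.1, c.2.2.2⟩
  choose D hD1 hD2 hD3 using hP
  let N : Set Z := ⋃ q : P × (ι × Bool), ((q.1.1 q.2 : Set Z) ∩ f ⁻¹' D q.1 q.2)
  have hN1 : MeasurableSet N := MeasurableSet.iUnion fun q =>
    (hB.isOpen (q.1.1 q.2).2).measurableSet.inter (hf.measurable (hD1 _ _))
  have hN2 : InjCovered f N := InjCovered.iUnion fun q => hD3 _ _
  let R : ι → Set Z := fun i => U i \ N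
  have hR : ∀ i, MeasurableSet (R i) := fun i => (hU i).measurableSet.diff hN1
  let T : ι → Set X := fun i => (fun p : Z × Z => f p.1) ''
    {p : Z × Z | p.1 ∈ R i ∧ p.2 ∈ R i ∧ p.1 ≠ p.2 ∧ f p.1 = f p.2}
  have hT : ∀ i, AnalyticSet (T i) := by
    intro i
    refine MeasurableSet.analyticSet_image ?_ (hf.measurable.comp measurable_fst)
    refine (measurable_fst (hR i)).inter ((measurable_snd (hR i)).inter (MeasurableSet.inter ?_ ?_))
    · exact (isClosed_eq continuous_fst continuous_snd).isOpen_compl.measurableSet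
    · exact (isClosed_eq (hf.comp continuous_fst) (hf.comp continuous_snd)).measurableSet
  have hTe : ∀ x, ∃ i, x ∉ T i := by
    intro x
    by_contra hx
    push Not at hx
    choose p hp hpx using hx
    have key : ∀ (i : ι) (z : Z) (r : ℝ), z ∈ U i → 0 < r →
        ∃ t : B, z ∈ (t : Set Z) ∧ closure (t : Set Z) ⊆ U i ∧ (t : Set Z) ⊆ Metric.ball z r ∧
          Metric.ediam (t : Set Z) ≤ ENNReal.ofReal ε := by
      intro i z r hz hr
      obtain ⟨t, ht, hzt, hcl⟩ := hB.exists_closure_subset
        (x := z) (s := U i ∩ (Metric.ball z r ∩ Metric.ball z (ε / 2)))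
        (inter_mem ((hU i).mem_nhds hz)
          (inter_mem (Metric.ball_mem_nhds z hr) (Metric.ball_mem_nhds z (half_pos hε))))
      refine ⟨⟨t, ht⟩, hzt, fun y hy => (hcl hy).1, fun y hy => (hcl (subset_closure hy)).2.1, ?_⟩
      apply Metric.ediam_le
      intro a ha b hb
      rw [edist_dist]
      apply ENNReal.ofReal_le_ofReal
      have h1 := (hcl (subset_closure ha)).2.2
      have h2 := (hcl (subset_closure hb)).2.2
      rw [Metric.mem_ball] at h1 h2
      linarith [dist_triangle_right a b z]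
    have hpos : ∀ i, 0 < dist (p i).1 (p i).2 / 2 := fun i => half_pos (dist_pos.2 (hp i).2.2.1)
    choose t1 ht1 using fun i => key i (p i).1 _ (hp i).1.1 (hpos i)
    choose t2 ht2 using fun i => key i (p i).2 _ (hp i).2.1.1 (hpos i)
    let c : P := ⟨fun q => cond q.2 (t2 q.1) (t1 q.1), ?_, ?_, ?_⟩
    · obtain ⟨⟨i, b⟩, hq⟩ := hD2 c x
      cases b
      · refine (hp i).1.2 (mem_iUnion.2 ⟨(c, (i, false)), (ht1 i).1, ?_⟩)
        have : f (p i).1 = x := hpx i
        show f (p i).1 ∈ D c (i, false)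
        rwa [this]
      · refine (hp i).2.1.2 (mem_iUnion.2 ⟨(c, (i, true)), (ht2 i).1, ?_⟩)
        have : f (p i).2 = x := (hp i).2.2.2.symm.trans (hpx i)
        show f (p i).2 ∈ D c (i, true)
        rwa [this]
    · intro i b
      cases b
      · exact (ht1 i).2.1
      · exact (ht2 i).2.1
    · intro i
      exact (Metric.ball_disjoint_ball (by linarith)).mono (ht1 i).2.2.1 (ht2 i).2.2.1
    · rintro ⟨i, b⟩
      cases b
      · exact (ht1 i).2.2.2
      · exact (ht2 i).2.2.2
  obtain ⟨C, h1, h2, h3⟩ := novikov_finite T hT hTe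
  refine h ⟨fun i => (C i)ᶜ, fun i => (h1 i).compl, h3, fun i => ?_⟩
  have hinj : InjCovered f (R i ∩ f ⁻¹' (C i)ᶜ) := by
    refine InjCovered.of_injOn ((hR i).inter (hf.measurable (h1 i).compl)) ?_
    intro z hz z' hz' hzz
    by_contra hne'
    exact hz.2 (h2 i ⟨(z, z'), ⟨hz.1, hz'.1, hne', hzz⟩, rfl⟩)
  refine (hinj.union hN2).mono ?_
  rintro z ⟨hz, hz'⟩
  by_cases hzN : z ∈ N
  · exact Or.inr hzN
  · exact Or.inl ⟨⟨hz, hzN⟩, hz'⟩

/-- Index type of level `n` of the binary tree. -/
def Idx : ℕ → Type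
  | 0 => Unit
  | n + 1 => Idx n × Bool

theorem finite_Idx : ∀ n, Finite (Idx n)
  | 0 => inferInstanceAs (Finite Unit)
  | n + 1 => by
    have := finite_Idx n
    exact inferInstanceAs (Finite (Idx n × Bool))

/-- A binary list as an index of its level. -/
def toIdx : (l : List Bool) → Idx l.length
  | [] => ()
  | b :: l => (toIdx l, b)

theorem injCovered_univ_of_continuous {f : Z → X} (hf : Continuous f)
    (hc : ∀ x, (f ⁻¹' {x}).Countable) : InjCovered f univ := by
  by_contra hne
  let T : ℕ → Type _ := fun n => {U : Idx n → Set Z // (∀ i, IsOpen (U i)) ∧ LargeFam f U}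
  have h0 : LargeFam f (fun _ : Idx 0 => (univ : Set Z)) := by
    rintro ⟨D, -, h2, h3⟩
    refine hne ((h3 ()).mono fun z _ => ⟨trivial, ?_⟩)
    obtain ⟨i, hi⟩ := h2 (f z)
    exact hi
  have hstep : ∀ (n : ℕ) (s : T n), ∃ s' : T (n + 1),
      (∀ i b, closure (s'.1 (i, b)) ⊆ s.1 i) ∧ (∀ i, Disjoint (s'.1 (i, false)) (s'.1 (i, true))) ∧
      ∀ p, Metric.ediam (s'.1 p) ≤ ENNReal.ofReal (1 / ((n : ℝ) + 1)) := by
    intro n s
    have := finite_Idx n
    obtain ⟨V, hV, h1, h2, h3⟩ := s.2.2.refine hf s.2.1 (ε := 1 / ((n : ℝ) + 1)) (by positivity)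
    exact ⟨⟨V, hV⟩, h1, h2, h3⟩
  choose step hs1 hs2 hs3 using hstep
  let S : ∀ n, T n := fun n => Nat.rec (motive := T) ⟨fun _ => univ, fun _ => isOpen_univ, h0⟩
    step n
  let A : List Bool → Set Z := fun l => (S l.length).1 (toIdx l)
  have hcl : CantorScheme.ClosureAntitone A := fun l b => hs1 l.length (S l.length) (toIdx l) b
  have hdis : CantorScheme.Disjoint A := by
    intro l a b hab
    cases a <;> cases b
    · exact absurd rfl hab
    · exact hs2 l.length (S l.length) (toIdx l)
    · exact (hs2 l.length (S l.length) (toIdx l)).symm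
    · exact absurd rfl hab
  have hdiam : CantorScheme.VanishingDiam A := by
    intro σ
    rw [← tendsto_add_atTop_iff_nat 1]
    have h1 : Tendsto (fun n : ℕ => ENNReal.ofReal (1 / ((n : ℝ) + 1))) atTop (𝓝 0) := by
      rw [← ENNReal.ofReal_zero]
      exact ENNReal.tendsto_ofReal tendsto_one_div_add_atTop_nhds_zero_nat
    refine tendsto_of_tendsto_of_tendsto_of_le_of_le tendsto_const_nhds h1 (fun _ => zero_le)
      fun n => ?_
    have := hs3 (PiNat.res σ n).length (S _) (toIdx (PiNat.res σ n), σ n)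
    rw [show (((PiNat.res σ n).length : ℕ) : ℝ) = n by rw [PiNat.res_length]] at this
    exact this
  have hcommon : ∀ n, ∃ x, ∀ l : List Bool, l.length = n → x ∈ f '' A l := by
    intro n
    have := finite_Idx n
    obtain ⟨x, hx⟩ := (S n).2.2.exists_common hf (S n).2.1
    refine ⟨x, ?_⟩
    rintro l rfl
    exact hx (toIdx l)
  choose x hx using hcommon
  have hnon : ∀ l, (A l).Nonempty := fun l => by
    obtain ⟨z, hz, -⟩ := hx l.length l rfl
    exact ⟨z, hz⟩
  have huniv := hcl.map_of_vanishingDiam hdiam hnon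
  let g : (ℕ → Bool) → Z := fun σ => (CantorScheme.inducedMap A).2 ⟨σ, by rw [huniv]; trivial⟩
  have hginj : Function.Injective g := by
    intro σ τ h
    exact congrArg Subtype.val (hdis.map_injective h)
  have hlim : ∀ σ, Tendsto x atTop (𝓝 (f (g σ))) := by
    intro σ
    choose z hz hzx using fun n => hx n (PiNat.res σ n) (PiNat.res_length σ n)
    have h1 : Tendsto z atTop (𝓝 (g σ)) := by
      rw [tendsto_iff_edist_tendsto_0]
      refine tendsto_of_tendsto_of_tendsto_of_le_of_le tendsto_const_nhds (hdiam σ)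
        (fun _ => zero_le) fun n => ?_
      exact Metric.edist_le_ediam_of_mem (hz n) (CantorScheme.map_mem _ n)
    have h2 := (hf.tendsto _).comp h1
    rwa [show f ∘ z = x from funext hzx] at h2
  have hcount : (univ : Set (ℕ → Bool)).Countable := by
    refine ((hc (f (g fun _ => false))).preimage_of_injOn hginj.injOn).mono fun σ _ => ?_
    exact tendsto_nhds_unique (hlim σ) (hlim _)
  obtain ⟨u, hu⟩ := hcount.exists_eq_range ⟨fun _ => false, trivial⟩
  have : (fun n => !(u n n)) ∈ range u := by rw [← hu]; trivial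
  obtain ⟨n, hn⟩ := this
  simpa using congrFun hn n

end Top

/-- **Lusin and Novikov**: a countable-to-one measurable map between standard Borel spaces is
injective on each member of a countable measurable cover. -/
theorem lusin_novikov {Z X : Type*} [MeasurableSpace Z] [StandardBorelSpace Z]
    [MeasurableSpace X] [StandardBorelSpace X] {f : Z → X} (hf : Measurable f)
    (hc : ∀ x, (f ⁻¹' {x}).Countable) :
    ∃ B : ℕ → Set Z, (∀ n, MeasurableSet (B n)) ∧ (∀ n, InjOn f (B n)) ∧ ∀ z, ∃ n, z ∈ B n := by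
  let := upgradeStandardBorel X
  let tZ := upgradeStandardBorel Z
  obtain ⟨t', hle, hcont, hpol⟩ := hf.exists_continuous
  have hb' : @BorelSpace Z t' _ := by
    constructor
    rw [eq_borel_upgradeStandardBorel Z, borel_eq_borel_of_le hpol _ hle]
    infer_instance
  clear_value tZ
  clear hle tZ
  let := t'
  let := TopologicalSpace.upgradeIsCompletelyMetrizable Z
  obtain ⟨B, h1, h2, h3⟩ := injCovered_univ_of_continuous hcont hc
  exact ⟨B, h1, h2, fun z => mem_iUnion.1 (h3 (mem_univ z))⟩

/-- The classes of a countable Borel equivalence relation are enumerated by countably many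
measurable maps. -/
theorem exists_enumeration {X : Type*} [MeasurableSpace X] [StandardBorelSpace X] (E : Setoid X)
    (hE : MeasurableSet {p : X × X | E p.1 p.2}) (hc : ∀ x, {y | E x y}.Countable) :
    ∃ φ : ℕ → X → X, (∀ n, Measurable (φ n)) ∧ (∀ n x, E x (φ n x)) ∧
      ∀ x y, E x y → ∃ n, φ n x = y := by
  classical
  let Z := {p : X × X | E p.1 p.2}
  have : StandardBorelSpace Z := hE.standardBorel
  let f : Z → X := fun z => z.1.1
  have hf : Measurable f := measurable_fst.comp measurable_subtype_coe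
  have hcount : ∀ x, (f ⁻¹' {x}).Countable := by
    intro x
    refine ((hc x).preimage_of_injOn (f := fun z : (f ⁻¹' {x}) => z.1.1.2) ?_).mono
      (s₁ := univ) ?_ |> Set.countable_univ_iff.1 |> Set.countable_coe_iff.1
    · rintro ⟨⟨⟨a, b⟩, hab⟩, ha⟩ - ⟨⟨⟨a', b'⟩, hab'⟩, ha'⟩ - h
      have h1 : a = x := ha
      have h2 : a' = x := ha'
      have h3 : b = b' := h
      subst h1 h2 h3
      rfl
    · rintro ⟨⟨⟨a, b⟩, hab⟩, ha⟩ -
      have h1 : a = x := ha
      subst h1
      exact hab
  obtain ⟨B, h1, h2, h3⟩ := lusin_novikov hf hcount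
  have hemb : ∀ n, MeasurableEmbedding (fun z : B n => f z.1) := by
    intro n
    have : StandardBorelSpace (B n) := (h1 n).standardBorel
    exact (hf.comp measurable_subtype_coe).measurableEmbedding (injOn_iff_injective.1 (h2 n))
  refine ⟨fun n => Function.extend (fun z : B n => f z.1) (fun z => z.1.1.2) id, ?_, ?_, ?_⟩
  · intro n
    exact (hemb n).measurable_extend
      (measurable_snd.comp (measurable_subtype_coe.comp measurable_subtype_coe)) measurable_id
  · intro n x
    dsimp only
    by_cases hx : ∃ z : B n, f z.1 = x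
    · obtain ⟨z, rfl⟩ := hx
      rw [(hemb n).injective.extend_apply]
      exact z.1.2
    · rw [Function.extend_apply' _ _ _ hx]
      exact E.refl x
  · intro x y hxy
    obtain ⟨n, hn⟩ := h3 ⟨(x, y), hxy⟩
    exact ⟨n, (hemb n).injective.extend_apply _ _ ⟨⟨(x, y), hxy⟩, hn⟩⟩

end Pool.Agent.Lib.Helper36
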